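import Mathlib

/-!
# [H49 MF Orn] A convex cone whose closure contains the unit vectors contains the open orthant

Let `D` be the cone, `y` with all `y i > 0`.  `D` is convex; `closure D` contains all points with coordinates `≥ 0` (`closure D` is closed under sums and nonnegative multiples;
`x = ∑ x i • Pi.single i 1`).  The open orthant `O` is open, so `y ∈ interior (closure D)`.
`interior (closure D) = interior D` for a convex set with nonempty interior (`Convex.interior_closure_eq_interior_of_nonempty_interior` or a similar name), and `interior D` is nonempty: if
`affineSpan ℝ D ≠ ⊤` (`Convex.interior_nonempty_iff_affineSpan_eq_top`) then `D` is contained in a proper affine subspace, which is closed (finite dimension), so `O ⊆ closure D` is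
contained in it: impossible (an open nonempty set spans).  Alternatively: Hahn-Banach (`geometric_hahn_banach`), or linear algebra: `D` spans, so it contains a basis, and the positive
combinations of a basis are an open set.
-/

set_option autoImplicit false

namespace Pool.Agent.H49.MF

theorem orthant_sub {ι : Type} [Fintype ι] [DecidableEq ι] {D : Set (ι → ℝ)} (h0 : (0 : ι → ℝ) ∈ D)
    (ha : ∀ x ∈ D, ∀ y ∈ D, x + y ∈ D) (hs : ∀ c : ℝ, 0 ≤ c → ∀ x ∈ D, c • x ∈ D)
    (he : ∀ i, (Pi.single i 1 : ι → ℝ) ∈ closure D) {y : ι → ℝ} (hy : ∀ i, 0 < y i) : y ∈ D := by
  sorry

end Pool.Agent.H49.MF
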