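import Pool.Agent.H49.MF.Eff
import Pool.Agent.H49.MF.Orn

/-!
# [H49 MF All] If one class with `l = 0` is effective then all are

* `w_pos`: `w ≠ 0` integral in `closure C`, `l w ≤ 0`: `w_0 = 0` (`zero_of`), `w_i ≥ 0` (`nn`), and if one `w_i = 0` then all are (`h.intF`), so `toR w = 0` (`expand`), `w = 0` (`toR_ne_zero`).
* `all_eff`: `w'` with `toR w' ∈ closure C`, `l (toR w') = 0`.  `w' = 0`: `effS_zero` (`toR_zero`).  Otherwise `w'_0 = 0`, `w'_i > 0` (`w_pos`).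
  `D = {y : ι → ℝ | X.symm (fun o => o.elim 0 y) ∈ EffS E}` is a convex cone (`effS_zero`, `effS_add`, `effS_smul`; `X.symm` is linear).  For all `t`: `act (g t) (toR w) ∈ EffS E` (`effS_act`, `hE.inv`,
  `h.gG`) has the coordinates `0`, `lam t i * w_i`.  With `t k` from `big_seq h i`: `(lam (t k) i * w_i)⁻¹ • (lam (t k) j * w_j)_j ∈ D` converges to `Pi.single i 1`.  `orthant_sub`:
  `(w'_i)_i ∈ D`, i.e. `toR w' ∈ EffS E`.
-/

set_option autoImplicit false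

namespace Pool.Agent.H49.MF

open Pool.Agent.H57.KM Pool.Agent.H20.FV Pool.Agent.H60.P3 Filter Topology

variable {n : ℕ} {ι Tt : Type} [Fintype ι] {X : V n ≃ₗ[ℝ] (Option ι → ℝ)} {C : Set (V n)}
  {G : Subgroup (GL (Fin n) ℤ)} {g : Tt → GL (Fin n) ℤ} {lam : Tt → ι → ℝ} {M : ℝ}
  {T : V n →ₗ[ℝ] V n →ₗ[ℝ] V n →ₗ[ℝ] ℝ} {l : V n →ₗ[ℝ] ℝ} {E : Set (Fin n → ℤ)}

theorem w_pos (f : Fr C G T l) (h : FldD C G X g lam M) {w : Fin n → ℤ} (hw : w ≠ 0) (hwC : toR w ∈ closure C)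
    (hlw : l (toR w) = 0) : X (toR w) none = 0 ∧ ∀ i, 0 < X (toR w) (some i) := by
  sorry

theorem all_eff (f : Fr C G T l) (h : FldD C G X g lam M) (hE : EffD C G T E) {w : Fin n → ℤ} (hw : w ≠ 0)
    (hwC : toR w ∈ closure C) (hlw : l (toR w) = 0) (hwE : toR w ∈ EffS E) {w' : Fin n → ℤ}
    (hw' : toR w' ∈ closure C) (hlw' : l (toR w') = 0) : toR w' ∈ EffS E := by
  sorry

end Pool.Agent.H49.MF
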