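import Pool.Agent.H49.MF.Vec

/-!
# [H49 MF Big] Elements with one large eigenvalue

`big`: let `k = card ι ≥ 2` (`h.two`), `N ≥ 0` a natural number with `N - M ≥ log R` (`R ≥ 1` may be assumed: replace `R` by `max R 1`), `y i = N (k - 1)`, `y j = - N` for
`j ≠ i`: `∑ y = 0`; `h.cov` gives `t`: `log (lam t i) ≥ N (k - 1) - M ≥ N - M ≥ log R`, `log (lam t j) ≤ M - N ≤ - log R`.
`big_seq`: `big` for `R = k + 1`, choice; the limits by `squeeze` (`0 < lam`).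
`lam_ne`: `big` for `R = 2`: `lam t i ≥ 2`.
-/

set_option autoImplicit false

namespace Pool.Agent.H49.MF

open Pool.Agent.H57.KM Pool.Agent.H20.FV Pool.Agent.H60.P3 Filter Topology

variable {n : ℕ} {ι Tt : Type} [Fintype ι] {X : V n ≃ₗ[ℝ] (Option ι → ℝ)} {C : Set (V n)}
  {G : Subgroup (GL (Fin n) ℤ)} {g : Tt → GL (Fin n) ℤ} {lam : Tt → ι → ℝ} {M : ℝ}

theorem big (h : FldD C G X g lam M) (i : ι) (R : ℝ) (hR : 0 < R) :
    ∃ t, R ≤ lam t i ∧ ∀ j, j ≠ i → lam t j ≤ R⁻¹ := by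
  sorry

/-- a sequence with `lam i → ∞`, `lam j → 0` for `j ≠ i` -/
theorem big_seq (h : FldD C G X g lam M) (i : ι) :
    ∃ t : ℕ → Tt, Tendsto (fun k => (lam (t k) i)⁻¹) atTop (𝓝 0) ∧
      ∀ j, j ≠ i → Tendsto (fun k => lam (t k) j) atTop (𝓝 0) := by
  sorry

theorem lam_ne (h : FldD C G X g lam M) (i : ι) : ∃ t, 2 ≤ lam t i := by
  sorry

end Pool.Agent.H49.MF
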