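import Pool.Agent.H49.MF.Def
import Pool.Agent.H57.KM.Cover
import Pool.Agent.H20.FV.Datum

/-!
# [H49 MF Crd] The coordinates of `ℚ × K`

`b_i = φ.symm (Pi.single i 1) : ℚ × K`.  `X v none = ∑ i, v i * (b_i).1`, `X v (some σ) = ∑ i, v i * σ (b_i).2`.
* `coord2`: linear in `v`; for `v = qR (φ (q, k))`: `X v none = q`, `X v (some σ) = σ k` (`(q, k) = ∑ (φ (q, k)) i • b_i`, the maps `(q, k) ↦ q`, `(q, k) ↦ σ k` are `ℚ`-linear).
  Bijective: both sides have dimension `r + 2` (`card_emb`: `Nat.card (K →+* ℝ) = r + 1`); surjective: otherwise there is a nonzero functional `c` on the right with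
  `∑_a c_a X v a = 0` for all `v`, so `c_none q + ∑ c_σ σ k = 0` for all `(q, k)`: contradiction to the linear independence of the distinct monoid homomorphisms
  `(q, k) ↦ q`, `(q, k) ↦ σ k` from `ℚ × K` to `ℝ` (`linearIndependent_monoidHom`; or: `k = 0` gives `c_none = 0`, then as in `Coord.lean`).
* `crd`: `Tt = {t // ∀ σ, 0 < σ (α t)}`, `g t = f t`, `lam t σ = σ (α t)`, `M` from `cover` (`H57/KM/Cover`; its `t` is in `Tt`).
  `act0`, `act1`: both sides are linear in `v` (`act_add`, `act_smul`) and agree on the vectors `qR (φ (q, k))`, in particular on `Pi.single i 1 = qR (φ (b_i))` (`hφ`).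
  `two`: `card_emb`, `hdeg`, `1 ≤ r` (`Fintype.one_lt_card_iff` or `Finite.one_lt_card_iff_nontrivial`).
  `one`: `X.symm (fun _ => 1) = qR (φ 1)` (`φ 1 = φ (1, 1)`, `σ 1 = 1`).  `int0`: `eb X none = qR (φ (1, 0))`, `datum_clear`.
  `rat0`: `toR m = qR (φ (φ.symm m))` (with `m` as a rational vector), so `X (toR m) none = (φ.symm m).1`.  `intF`: `X (toR m) (some σ) = σ (φ.symm m).2 = 0` gives `(φ.symm m).2 = 0`
  (`σ` is injective).
-/

set_option autoImplicit false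

namespace Pool.Agent.H49.MF

open Pool.Agent.H57.KM Pool.Agent.H20.FV Pool.Agent.H60.P3 Module NumberField

theorem coord2 {r : ℕ} {K : Type} [Field K] [NumberField K] (hreal : ∀ χ : K →+* ℂ, ∀ k, (χ k).im = 0)
    (φ : (ℚ × K) ≃ₗ[ℚ] (Fin (r + 2) → ℚ)) :
    ∃ X : V (r + 2) ≃ₗ[ℝ] (Option (K →+* ℝ) → ℝ), ∀ (q : ℚ) (k : K),
      X (qR (φ (q, k))) none = q ∧ ∀ σ, X (qR (φ (q, k))) (some σ) = σ k := by
  sorry

theorem crd {r : ℕ} (hr : 1 ≤ r) {C : Set (V (r + 2))} {G : Subgroup (GL (Fin (r + 2)) ℤ)}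
    {K : Type} [Field K] [NumberField K] [Fintype (K →+* ℝ)]
    (hreal : ∀ χ : K →+* ℂ, ∀ k, (χ k).im = 0) (hdeg : finrank ℚ K = r + 1)
    (α : Multiplicative (Fin r → ℤ) →* (𝓞 K)ˣ) (hα : Function.Injective α)
    (f : Multiplicative (Fin r → ℤ) → GL (Fin (r + 2)) ℤ) (hfG : ∀ t, f t ∈ G)
    (φ : (ℚ × K) ≃ₗ[ℚ] (Fin (r + 2) → ℚ)) (h1 : qR (φ 1) ∈ C)
    (hφ : ∀ t (q : ℚ) (k : K),
      qR (φ (q, (((α t : (𝓞 K)ˣ) : 𝓞 K) : K) * k)) = act (f t) (qR (φ (q, k)))) :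
    ∃ (X : V (r + 2) ≃ₗ[ℝ] (Option (K →+* ℝ) → ℝ)) (Tt : Type) (g : Tt → GL (Fin (r + 2)) ℤ)
      (lam : Tt → (K →+* ℝ) → ℝ) (M : ℝ), FldD C G X g lam M := by
  sorry

end Pool.Agent.H49.MF
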