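import Pool.Agent.H49.MF.Orc

/-!
# [H49 MF Cv1] The covering if `e_0 ∈ closure C`

`S0` from `orth_cover`, `s0` from `h.int0`; `S = insert s0 S0`: `toR s ∈ closure C` (`orth` for `s ∈ S0`; `c • e_0`, `closure_smul`).  `x ∈ C`: `v = x - x_0 • e_0`
has `v_0 = 0`, `v_i = x_i > 0` (`xpos`), so `act (g t) v ∈ cone S0` for some `t`, and `act (g t) x = x_0 • e_0 + act (g t) v` (`act_eb0`), `x_0 • e_0 = (x_0 / c) • toR s0`
(`pos0`).  `x ∈ act (g t)⁻¹ '' cone S`: `mem_image_act`, `G.inv_mem`.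
`ex_w`: `v = ∑ i, e_i`: `act (g t) v ∈ cone S0` is not `0` (coordinates `lam t i > 0`), so `S0` has an element `s`; `toR s ∈ closure C` (`orth`), `l (toR s) = 0` (`l_eq`), `s ≠ 0`
(`X (toR s) (some i) > 0`; `h.two` gives an `i`).
`cone_mono'`: `cone S ⊆ cone S'` for `S ⊆ S'` (`H20/FV/Basic` may have it: `cone_mono`).
-/

set_option autoImplicit false

namespace Pool.Agent.H49.MF

open Pool.Agent.H57.KM Pool.Agent.H20.FV Pool.Agent.H60.P3 Filter Topology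

variable {n : ℕ} {ι Tt : Type} [Fintype ι] {X : V n ≃ₗ[ℝ] (Option ι → ℝ)} {C : Set (V n)}
  {G : Subgroup (GL (Fin n) ℤ)} {g : Tt → GL (Fin n) ℤ} {lam : Tt → ι → ℝ} {M : ℝ}
  {T : V n →ₗ[ℝ] V n →ₗ[ℝ] V n →ₗ[ℝ] ℝ} {l : V n →ₗ[ℝ] ℝ}

theorem cov_of (f : Fr C G T l) (h : FldD C G X g lam M) (h0 : eb X none ∈ closure C) : Cov C G := by
  sorry

theorem ex_w (f : Fr C G T l) (h : FldD C G X g lam M) :
    ∃ w : Fin n → ℤ, w ≠ 0 ∧ toR w ∈ closure C ∧ l (toR w) = 0 := by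
  sorry

end Pool.Agent.H49.MF
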