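import Pool.Agent.H49.MF.Tri

/-!
# [H49 MF Loc] The local structure

* `loc_at`: `p ∈ closure C` with all coordinates positive.  `f.loc p`: let `w ∈ closure C`, `w ≠ 0`, `T (p+w) (p+w) (p+w) = 0` and suppose `l w ≤ 0`.  Then `w_0 = 0`
  (`zero_of`), `w_i ≥ 0` (`nn`), so `T p p w > 0` (`t_ppw`), and `T (p+w)³ = T p³ + 3 T p p w + 3 T p w w + T w³ ≥ 3 T p p w > 0` (`map_add`, `s12`, `s23`, `f.nn`):
  see the end of the proof of `parB` (`H60/P3/ParB`).  `p ≠ 0` as `X p none > 0`.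
* `all_pos`: `e_0 ∉ closure C`, `p ∈ closure C`, `p_0 > 0`: all `p_i > 0`: otherwise `p_i = 0` for some `i` (`nn`); `t k` from `big_seq h i`:
  `act (g (t k)) p → p_0 • e_0` (`tend_X`; coordinate `i`: `lam * 0 = 0`), so `p_0 • e_0 ∈ closure C`, `e_0 ∈ closure C` (`closure_smul` with `p_0⁻¹`).
-/

set_option autoImplicit false

namespace Pool.Agent.H49.MF

open Pool.Agent.H57.KM Pool.Agent.H20.FV Pool.Agent.H60.P3 Filter Topology

variable {n : ℕ} {ι Tt : Type} [Fintype ι] {X : V n ≃ₗ[ℝ] (Option ι → ℝ)} {C : Set (V n)}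
  {G : Subgroup (GL (Fin n) ℤ)} {g : Tt → GL (Fin n) ℤ} {lam : Tt → ι → ℝ} {M : ℝ}
  {T : V n →ₗ[ℝ] V n →ₗ[ℝ] V n →ₗ[ℝ] ℝ} {l : V n →ₗ[ℝ] ℝ}

theorem loc_at (f : Fr C G T l) (h : FldD C G X g lam M) {p : V n} (hp : p ∈ closure C)
    (hpos : ∀ a, 0 < X p a) : LocAt (closure C) p := by
  sorry

theorem all_pos (f : Fr C G T l) (h : FldD C G X g lam M) (h0 : eb X none ∉ closure C) {p : V n}
    (hp : p ∈ closure C) (hp0 : 0 < X p none) (i : ι) : 0 < X p (some i) := by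
  sorry

end Pool.Agent.H49.MF
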