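import Pool.Agent.H49.MF.Orc
import Pool.Agent.H49.MF.Loc

/-!
# [H49 MF Cv2] The covering if `e_0 ∉ closure C`

`S0` from `orth_cover`.  `A = X.symm (fun _ => 1) ∈ C` (`h.one`).
* `exists_N`: a natural number `N ≥ 1` with `1 ≤ N * X (toR s) (some i)` for all `s ∈ S0` and all `i` (finitely many positive numbers).
  Then for `s ∈ S0`: `e_0 + N • toR s = A + (N • toR s - ∑ e_i)`, the bracket has the coordinates `0`, `N s_i - 1 ≥ 0`: in `closure C` (`orth`), so `e_0 + N • toR s ∈ C` (`add_mem`).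
* `int_mult`: a positive multiple of `e_0 + N • toR s` is integral: `h.int0`: `toR s0 = c • e_0`, `c = X (toR s0) none` is rational (`h.rat0`), `c = u / w` with positive integers:
  `w • s0 + (u N) • s` is mapped to `w c • e_0 + u N • toR s = u • (e_0 + N • toR s)`.  `S1` = these vectors, `toR ∈ closure C`.
* `M' = closure C ∩ {e_0 + ∑ s ∈ S0, c s • toR s | 0 ≤ c s ≤ N}` is compact (the image of `Set.pi univ (Icc 0 N)` over the finite type `S0` under a continuous map, intersected with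
  a closed set), `0 ∉ M'` (coordinate `none` is `1`), `LocAt` at all points (`all_pos`, `loc_at`).  `cover`: `S2`.
* `x ∈ C`: `x_0 > 0` (`pos0`); `v = x_0⁻¹ • x - e_0` has `v_0 = 0`, `v_i > 0`: `act (g t) v = ∑ s ∈ S0, c s • toR s`, `c s ≥ 0`.  `z = act (g t) (x_0⁻¹ • x) = e_0 + ∑ ..` is in
  `closure C`.  If all `c s ≤ N` (`s ∈ S0`): `z ∈ M' ⊆ cone S2`.  Otherwise `c s1 > N` for some `s1 ∈ S0`: `z = (e_0 + N • toR s1) + ∑ s, c' s • toR s` with `c' = c` except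
  `c' s1 = c s1 - N ≥ 0`: in the cone over `S1 ∪ S0`.  `S = S0 ∪ S1 ∪ S2`; `act (g t) x = x_0 • z ∈ cone S` (`cone_smul`), `mem_image_act`.
-/

set_option autoImplicit false

namespace Pool.Agent.H49.MF

open Pool.Agent.H57.KM Pool.Agent.H20.FV Pool.Agent.H60.P3 Filter Topology

variable {n : ℕ} {ι Tt : Type} [Fintype ι] {X : V n ≃ₗ[ℝ] (Option ι → ℝ)} {C : Set (V n)}
  {G : Subgroup (GL (Fin n) ℤ)} {g : Tt → GL (Fin n) ℤ} {lam : Tt → ι → ℝ} {M : ℝ}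
  {T : V n →ₗ[ℝ] V n →ₗ[ℝ] V n →ₗ[ℝ] ℝ} {l : V n →ₗ[ℝ] ℝ}

theorem exists_N (S0 : Finset (Fin n → ℤ)) (hS : ∀ s ∈ S0, ∀ i, 0 < X (toR s) (some i)) :
    ∃ N : ℕ, 1 ≤ N ∧ ∀ s ∈ S0, ∀ i, 1 ≤ (N : ℝ) * X (toR s) (some i) := by
  sorry

theorem add_C (f : Fr C G T l) (h : FldD C G X g lam M) {N : ℕ} {s : Fin n → ℤ} (h0 : X (toR s) none = 0)
    (hN : ∀ i, 1 ≤ (N : ℝ) * X (toR s) (some i)) : eb X none + (N : ℝ) • toR s ∈ C := by
  sorry

theorem int_mult (h : FldD C G X g lam M) (N : ℕ) (s : Fin n → ℤ) :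
    ∃ (u : ℝ) (s' : Fin n → ℤ), 0 < u ∧ toR s' = u • (eb X none + (N : ℝ) • toR s) := by
  sorry

theorem compact_slab (C : Set (V n)) (e : V n) (S0 : Finset (Fin n → ℤ)) (N : ℝ) :
    IsCompact (closure C ∩ {z : V n | ∃ c : (Fin n → ℤ) → ℝ, (∀ s ∈ S0, 0 ≤ c s ∧ c s ≤ N) ∧
      z = e + ∑ s ∈ S0, c s • toR s}) := by
  sorry

theorem cov_not (f : Fr C G T l) (h : FldD C G X g lam M) (h0 : eb X none ∉ closure C) : Cov C G := by
  sorry

end Pool.Agent.H49.MF
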