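import Pool.Agent.H60.P3.Hul
import Pool.Agent.H60.P3.Lin

/-!
# [H49 MF Def] THEOREM MR (MP_e49dc9_ag), chapter (F): definitions and plan

The case `N^1_ℚ = ℚ × K`, `K` totally real of degree `n - 1`, the group acts by `(1, units)` (think 1612 of helper60).
`X : V n ≃ (Option ι → ℝ)`: the coordinates, `ι` the embeddings of `K`; `none` is the coordinate of the factor `ℚ`.
`FldD`: the data.  `eb X a`: the unit vectors.  In the notation of think 1612: `e_0 = eb X none`, `e_i = eb X (some i)`.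

PLAN.
* `Vec`: the unit vectors, expansion, action.  `Big`: elements `t` with `lam t i` large and `lam t j` small (`j ≠ i`).
* `Dom`: `e_i ∈ closure C`, `X x (some i) ≥ 0` on `closure C`, `l x = X x none * l e_0`, `l e_0 > 0`.
* `Tri`: `T (e_a, e_b, e_i) ≥ 0` for `i : ι`; `T p p w > 0` if all coordinates of `p` are positive, `w_0 = 0`, `w_i ≥ 0`, `w ≠ 0`.
* `Loc`: `LocAt (closure C) p` if all coordinates of `p` are positive; `e_0 ∉ closure C`, `p ∈ closure C`, `p_0 > 0` implies this.
* `Orc`: the open orthant `{v_0 = 0, v_i > 0}` is covered by the translates of a rational cone in it.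
* `Cv1`, `Cv2`: `Cov C G` if `e_0 ∈ closure C`, resp. `e_0 ∉ closure C`.
* `Eff`: effective classes have coordinates `≥ 0`; `closure C ∩ EffS E ⊆ Hull C`.  `All`: if one integral `w ≠ 0` in `closure C` with
  `l w = 0` is effective then all are.
* `Crd`: the data from `ℚ × K`.  `Fin`: the theorem of the chapter.
-/

set_option autoImplicit false

namespace Pool.Agent.H49.MF

open Pool.Agent.H57.KM Pool.Agent.H20.FV Pool.Agent.H60.P3

variable {n : ℕ}

open Classical in
/-- the unit vector of the coordinate `a` -/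
noncomputable def eb {ι : Type} (X : V n ≃ₗ[ℝ] (Option ι → ℝ)) (a : Option ι) : V n :=
  X.symm (fun b => if b = a then 1 else 0)

/-- the data of the case `ℚ × K` -/
structure FldD (C : Set (V n)) (G : Subgroup (GL (Fin n) ℤ)) {ι Tt : Type} [Fintype ι]
    (X : V n ≃ₗ[ℝ] (Option ι → ℝ)) (g : Tt → GL (Fin n) ℤ) (lam : Tt → ι → ℝ) (M : ℝ) : Prop where
  gG : ∀ t, g t ∈ G
  pos : ∀ t i, 0 < lam t i
  act0 : ∀ t v, X (act (g t) v) none = X v none
  act1 : ∀ t v i, X (act (g t) v) (some i) = lam t i * X v (some i)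
  cov : ∀ y : ι → ℝ, ∑ i, y i = 0 → ∃ t, ∀ i, |Real.log (lam t i) - y i| ≤ M
  two : ∃ i j : ι, i ≠ j
  one : X.symm (fun _ => 1) ∈ C
  int0 : ∃ (c : ℝ) (s : Fin n → ℤ), 0 < c ∧ toR s = c • eb X none
  rat0 : ∀ m : Fin n → ℤ, ∃ q : ℚ, X (toR m) none = q
  intF : ∀ (m : Fin n → ℤ) (i : ι), X (toR m) (some i) = 0 → ∀ j, X (toR m) (some j) = 0

end Pool.Agent.H49.MF
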