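import Pool.Agent.H49.MF.Big

/-!
# [H49 MF Dom] The cone in coordinates

`f : Fr C G T l`, `f.amp : IsAmp C`, `f.pres : Pres G C`.
* `lim_eb`: `x ∈ closure C`: with `t k` from `big_seq h i`: `u k = (lam (t k) i)⁻¹ • act (g (t k)) x` is in `closure C` (`act_closure`, `closure_smul`) and has
  the coordinates `(lam i)⁻¹ x_0 → 0`, `x_i`, `(lam i)⁻¹ lam j x_j → 0` (`j ≠ i`), so `u k → x_i • e_i` (`tend_X`): `x_i • e_i ∈ closure C` (`isClosed_closure`).
* `eb_mem`: `lim_eb` for `x = X.symm (fun _ => 1)` (`h.one`).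
* `nn`: `x_i • e_i ∈ closure C`, `e_i ∈ closure C`, `e_i ≠ 0`: `x_i ≥ 0` (`ray_nn` of `H60/P3/Lin`).
* `xpos`: `x ∈ C`: `x - ε • e_i ∈ C` for some `ε > 0` (`f.amp.oc.exists_sub`), `nn`.
* `l_eb`: `l e_i = l (act (g t) e_i) = lam t i * l e_i` (`f.linv`, `act_eb1`), `lam_ne`: `l e_i = 0`.  `l_eq`: `expand`.
  `l_pos`: `0 < l (X.symm (fun _ => 1)) = l e_0` (`f.lpos`, `l_eq`).
* `nn0`: `l x ≥ 0` on `closure C` (`l_nn`).  `pos0`: `f.lpos`.
* `zero_of`: `x ∈ closure C`, `l x ≤ 0`: `x_0 = 0`.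
-/

set_option autoImplicit false

namespace Pool.Agent.H49.MF

open Pool.Agent.H57.KM Pool.Agent.H20.FV Pool.Agent.H60.P3 Filter Topology

variable {n : ℕ} {ι Tt : Type} [Fintype ι] {X : V n ≃ₗ[ℝ] (Option ι → ℝ)} {C : Set (V n)}
  {G : Subgroup (GL (Fin n) ℤ)} {g : Tt → GL (Fin n) ℤ} {lam : Tt → ι → ℝ} {M : ℝ}
  {T : V n →ₗ[ℝ] V n →ₗ[ℝ] V n →ₗ[ℝ] ℝ} {l : V n →ₗ[ℝ] ℝ}

theorem lim_eb (f : Fr C G T l) (h : FldD C G X g lam M) (i : ι) {x : V n} (hx : x ∈ closure C) :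
    X x (some i) • eb X (some i) ∈ closure C := by
  sorry

theorem eb_mem (f : Fr C G T l) (h : FldD C G X g lam M) (i : ι) : eb X (some i) ∈ closure C := by
  sorry

theorem nn (f : Fr C G T l) (h : FldD C G X g lam M) {x : V n} (hx : x ∈ closure C) (i : ι) :
    0 ≤ X x (some i) := by
  sorry

theorem xpos (f : Fr C G T l) (h : FldD C G X g lam M) {x : V n} (hx : x ∈ C) (i : ι) :
    0 < X x (some i) := by
  sorry

theorem l_eb (f : Fr C G T l) (h : FldD C G X g lam M) (i : ι) : l (eb X (some i)) = 0 := by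
  sorry

theorem l_eq (f : Fr C G T l) (h : FldD C G X g lam M) (x : V n) : l x = X x none * l (eb X none) := by
  sorry

theorem l_pos (f : Fr C G T l) (h : FldD C G X g lam M) : 0 < l (eb X none) := by
  sorry

theorem nn0 (f : Fr C G T l) (h : FldD C G X g lam M) {x : V n} (hx : x ∈ closure C) : 0 ≤ X x none := by
  sorry

theorem pos0 (f : Fr C G T l) (h : FldD C G X g lam M) {x : V n} (hx : x ∈ C) : 0 < X x none := by
  sorry

theorem zero_of (f : Fr C G T l) (h : FldD C G X g lam M) {x : V n} (hx : x ∈ closure C) (hl : l x ≤ 0) :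
    X x none = 0 := by
  sorry

/-- the closed orthant is in `closure C` -/
theorem orth (f : Fr C G T l) (h : FldD C G X g lam M) {v : V n} (h0 : X v none = 0)
    (hv : ∀ i, 0 ≤ X v (some i)) : v ∈ closure C := by
  sorry

end Pool.Agent.H49.MF
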