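import Pool.Agent.H49.MF.Orc
import Pool.Agent.H49.MF.Loc
import Pool.Agent.H60.P3.HypE

/-!
# [H49 MF Eff] Effective classes

* `eff_nn'`: `A` integral in `C` (`IsAmp.exists_int`), `d ∈ E`: `0 ≤ T A A (act (g t) (toR d))` for all `t` (`eff_nn` of `H60/P3/HypE`, `h.gG`).  By `expand`, `act_eb0`, `act_eb1`
  this is `d_0 T A A e_0 + ∑ j, lam t j d_j T A A e_j`; multiply by `(lam t i)⁻¹`, `t = t k` from `big_seq h i`: in the limit `0 ≤ d_i T A A e_i`, and `T A A e_i > 0`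
  (`f.pos`, `eb_mem`, `eb_ne`).
* `effS_zero_of`: `x = ∑ c_j • toR (d_j)`, `c_j ≥ 0`, `X x (some i) = ∑ c_j X (toR d_j) (some i) = 0`, all terms `≥ 0`: all are `0`; `c_j = 0` or `X (toR d_j) (some i) = 0`, then all
  `X (toR d_j) (some k) = 0` (`h.intF`); so `X x (some k) = 0`.
* `orth_hull`: `v_0 = 0`, `v_i > 0`: `S0`, `t` from `orth_cover`: `act (g t) v = ∑ c_s • toR s`, `v = ∑ c_s • act (g t)⁻¹ (toR s)` (`act_inv_act`, `act_sum`, `act_smul`), and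
  `act (g t)⁻¹ (toR s)` is integral (`exists_toR_act`) and in `closure C` (`orth`, `f.pres.closure`, `G.inv_mem`): `hull_int`, `hull_smul`, sums (`hull_add`, `hull_zero`).
* `eff_hull`: `x ∈ closure C ∩ EffS E`.  If `x_i = 0` for some `i` then all `x_k = 0` (`effS_zero_of`), `x = x_0 • e_0` (`expand`); `x_0 = 0`: `hull_zero`; `x_0 > 0`: `e_0 ∈ closure C`,
  `x = (x_0 / c) • toR s0` (`h.int0`).  Otherwise all `x_i > 0` (`nn`); `x_0 = 0`: `orth_hull`; `x_0 > 0` (`nn0`): `loc_at`, `loc_hull`.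
-/

set_option autoImplicit false

namespace Pool.Agent.H49.MF

open Pool.Agent.H57.KM Pool.Agent.H20.FV Pool.Agent.H60.P3 Filter Topology

variable {n : ℕ} {ι Tt : Type} [Fintype ι] {X : V n ≃ₗ[ℝ] (Option ι → ℝ)} {C : Set (V n)}
  {G : Subgroup (GL (Fin n) ℤ)} {g : Tt → GL (Fin n) ℤ} {lam : Tt → ι → ℝ} {M : ℝ}
  {T : V n →ₗ[ℝ] V n →ₗ[ℝ] V n →ₗ[ℝ] ℝ} {l : V n →ₗ[ℝ] ℝ} {E : Set (Fin n → ℤ)}

theorem eff_nn' (f : Fr C G T l) (h : FldD C G X g lam M) (hE : EffD C G T E) {d : Fin n → ℤ} (hd : d ∈ E)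
    (i : ι) : 0 ≤ X (toR d) (some i) := by
  sorry

theorem effS_zero_of (f : Fr C G T l) (h : FldD C G X g lam M) (hE : EffD C G T E) {x : V n} (hx : x ∈ EffS E)
    (i : ι) (hi : X x (some i) = 0) (k : ι) : X x (some k) = 0 := by
  sorry

theorem orth_hull (f : Fr C G T l) (h : FldD C G X g lam M) {v : V n} (h0 : X v none = 0)
    (hv : ∀ i, 0 < X v (some i)) : v ∈ Hull C := by
  sorry

theorem eff_hull (f : Fr C G T l) (h : FldD C G X g lam M) (hE : EffD C G T E) {x : V n} (hx : x ∈ closure C)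
    (hxE : x ∈ EffS E) : x ∈ Hull C := by
  sorry

end Pool.Agent.H49.MF
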