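import Pool.Agent.H49.MF.Cv1
import Pool.Agent.H49.MF.Cv2
import Pool.Agent.H49.MF.All
import Pool.Agent.H49.MF.Crd

/-!
# [H49 MF Fin] The theorem of the chapter
-/

set_option autoImplicit false

namespace Pool.Agent.H49.MF

open Pool.Agent.H57.KM Pool.Agent.H20.FV Pool.Agent.H60.P3 Module NumberField

theorem fld_main {n : ℕ} {ι Tt : Type} [Fintype ι] {X : V n ≃ₗ[ℝ] (Option ι → ℝ)} {C : Set (V n)}
    {G : Subgroup (GL (Fin n) ℤ)} {g : Tt → GL (Fin n) ℤ} {lam : Tt → ι → ℝ} {M : ℝ}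
    {T : V n →ₗ[ℝ] V n →ₗ[ℝ] V n →ₗ[ℝ] ℝ} {l : V n →ₗ[ℝ] ℝ} {E : Set (Fin n → ℤ)}
    (f : Fr C G T l) (h : FldD C G X g lam M) (hE : EffD C G T E) :
    Cov C G ∧ (∀ x ∈ closure C, x ∈ EffS E → x ∈ Hull C) ∧
      (∃ w : Fin n → ℤ, w ≠ 0 ∧ toR w ∈ closure C ∧ l (toR w) = 0) ∧
      ((∃ w : Fin n → ℤ, w ≠ 0 ∧ toR w ∈ closure C ∧ l (toR w) = 0 ∧ toR w ∈ EffS E) →
        ∀ w : Fin n → ℤ, toR w ∈ closure C → l (toR w) = 0 → toR w ∈ EffS E) := by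
  refine ⟨?_, fun x hx hxE => eff_hull f h hE hx hxE, ex_w f h, ?_⟩
  · by_cases h0 : eb X none ∈ closure C
    · exact cov_of f h h0
    · exact cov_not f h h0
  · rintro ⟨w, hw, hwC, hlw, hwE⟩ w' hw' hlw'
    exact all_eff f h hE hw hwC hlw hwE hw' hlw'

/-- **chapter (F)**: `N^1_ℚ = ℚ × K`, the group acts by `(1, units of full rank)` -/
theorem fld_thm {r : ℕ} (hr : 1 ≤ r) {C : Set (V (r + 2))} {G : Subgroup (GL (Fin (r + 2)) ℤ)}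
    {T : V (r + 2) →ₗ[ℝ] V (r + 2) →ₗ[ℝ] V (r + 2) →ₗ[ℝ] ℝ} {l : V (r + 2) →ₗ[ℝ] ℝ} {E : Set (Fin (r + 2) → ℤ)}
    (fr : Fr C G T l) (hE : EffD C G T E)
    {K : Type} [Field K] [NumberField K]
    (hreal : ∀ χ : K →+* ℂ, ∀ k, (χ k).im = 0) (hdeg : finrank ℚ K = r + 1)
    (α : Multiplicative (Fin r → ℤ) →* (𝓞 K)ˣ) (hα : Function.Injective α)
    (f : Multiplicative (Fin r → ℤ) → GL (Fin (r + 2)) ℤ) (hfG : ∀ t, f t ∈ G)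
    (φ : (ℚ × K) ≃ₗ[ℚ] (Fin (r + 2) → ℚ)) (h1 : qR (φ 1) ∈ C)
    (hφ : ∀ t (q : ℚ) (k : K),
      qR (φ (q, (((α t : (𝓞 K)ˣ) : 𝓞 K) : K) * k)) = act (f t) (qR (φ (q, k)))) :
    Cov C G ∧ (∀ x ∈ closure C, x ∈ EffS E → x ∈ Hull C) ∧
      (∃ w : Fin (r + 2) → ℤ, w ≠ 0 ∧ toR w ∈ closure C ∧ l (toR w) = 0) ∧
      ((∃ w : Fin (r + 2) → ℤ, w ≠ 0 ∧ toR w ∈ closure C ∧ l (toR w) = 0 ∧ toR w ∈ EffS E) →
        ∀ w : Fin (r + 2) → ℤ, toR w ∈ closure C → l (toR w) = 0 → toR w ∈ EffS E) := by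
  have hfin : Finite (K →+* ℝ) := by
    apply Nat.finite_of_card_ne_zero
    rw [card_emb hreal, hdeg]
    omega
  have := Fintype.ofFinite (K →+* ℝ)
  obtain ⟨X, Tt, g, lam, M, h⟩ := crd hr hreal hdeg α hα f hfG φ h1 hφ
  exact fld_main fr h hE

end Pool.Agent.H49.MF
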