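import Pool.Agent.H49.MF.Tri

/-!
# [H49 MF Num] The degree of the field is at most three

`A = X.symm (fun _ => 1)`, `i` from `h.two`: `0 < T A A e_i = ∑_a ∑_b T e_a e_b e_i` (`f.pos`, `eb_mem`, `eb_ne`, `expand`), so `T e_a e_b e_i ≠ 0` for some `a, b : Option ι`.  By `f.Tinv`, `act_eb0`,
`act_eb1`: `L_a L_b (lam t i) = 1` for all `t`, where `L_none = 1`, `L_(some j) = lam t j`; so `log L_a + log L_b + log (lam t i) = 0`.
Suppose `4 ≤ card ι`.  The set `Z` of the indices `j : ι` with `some j ∈ {a, b, some i}` has at most `3` elements and contains `i`; choose `j ∉ Z`, and `y k = N` for `k ∈ Z`, `y j = - N * card Z`,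
`y k = 0` otherwise, `N > 3 M`, `N > 0`: `∑ y = 0`, `h.cov` gives `t` with `log (lam t k) ≥ N - M` for `k ∈ Z`: the sum of the logarithms is `≥ N - M + ...`; each of the at most three terms is
`≥ N - M > 0` and there is at least one: contradiction.
-/

set_option autoImplicit false

namespace Pool.Agent.H49.MF

open Pool.Agent.H57.KM Pool.Agent.H20.FV Pool.Agent.H60.P3 Filter Topology

variable {n : ℕ} {ι Tt : Type} [Fintype ι] {X : V n ≃ₗ[ℝ] (Option ι → ℝ)} {C : Set (V n)}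
  {G : Subgroup (GL (Fin n) ℤ)} {g : Tt → GL (Fin n) ℤ} {lam : Tt → ι → ℝ} {M : ℝ}
  {T : V n →ₗ[ℝ] V n →ₗ[ℝ] V n →ₗ[ℝ] ℝ} {l : V n →ₗ[ℝ] ℝ}

theorem card_le (f : Fr C G T l) (h : FldD C G X g lam M) : Fintype.card ι ≤ 3 := by
  sorry

end Pool.Agent.H49.MF
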