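import Pool.Agent.H49.MF.Dom

/-!
# [H49 MF Orc] The open orthant is covered by the translates of a rational cone

* `proj_int`: for `s` integral `toR s - X (toR s) none • e_0` has a positive multiple which is integral: `h.int0`: `toR s0 = c • e_0`, `c > 0`; `h.rat0`: `X (toR s) none = q`,
  `X (toR s0) none = c` is rational; `q / c = u / w`, `w ≥ 1`; `s' = w • s - u • s0`, `toR s' = w • toR s - (u c) • e_0 = w • (toR s - q • e_0)` (`toR_sub`, `toR_smul`).
* `box`: the set `{v | X v none = 1, ∀ i, exp (-M) ≤ X v (some i) ≤ exp M}` is compact: the image of a compact box (`isCompact_univ_pi`, `isCompact_Icc`)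
  under the continuous `X.symm`.
* `pos_amp`: `{v | ∀ a, 0 < X v a}` is `IsAmp` (nonempty: `X.symm (fun _ => 1)`; open; `add`, `smul`; `pointed`: in the closure `0 ≤ X v a`, so `x`, `-x` in the closure gives
  `X x = 0`).
* `orth_cover`: `cover` (`H60/P3/Cover`) for `O = {v | ∀ a, 0 < X v a}`, the box (`⊆ O ⊆ closure O`, `0 ∉ box`), `LocAt (closure O) p` for `p ∈ O` with the empty `Finset` and a ball in `O`:
  `S'`.  `S` = the vectors `s'` of `proj_int` for `s ∈ S'`, without those with `toR s' = 0`: `X (toR s') none = 0`, `X (toR s') (some i) = w X (toR s) (some i) ≥ 0` (closure of `O`), and if one is `0`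
  then all are (`h.intF`), so `toR s' = 0`.  For `v` with `v_0 = 0`, `v_i > 0`: `a = (∑ log v_i) / k`, `h.cov` for `y i = a - log v_i` gives `t` with
  `|log (lam t i * v_i) - a| ≤ M`; `exp (-a) • act (g t) v + e_0` is in the box, so it is `∑ c_s • toR s`, `s ∈ S'`; subtract `e_0 = (∑ c_s X (toR s) none) • e_0` (coordinate `none`):
  `exp (-a) • act (g t) v = ∑ c_s • (toR s - X (toR s) none • e_0) ∈ cone S` (`cone_add`, `cone_smul`; a sum over a `Finset`: induction).
-/

set_option autoImplicit false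

namespace Pool.Agent.H49.MF

open Pool.Agent.H57.KM Pool.Agent.H20.FV Pool.Agent.H60.P3 Filter Topology

variable {n : ℕ} {ι Tt : Type} [Fintype ι] {X : V n ≃ₗ[ℝ] (Option ι → ℝ)} {C : Set (V n)}
  {G : Subgroup (GL (Fin n) ℤ)} {g : Tt → GL (Fin n) ℤ} {lam : Tt → ι → ℝ} {M : ℝ}

theorem proj_int (h : FldD C G X g lam M) (s : Fin n → ℤ) :
    ∃ (w : ℝ) (s' : Fin n → ℤ), 0 < w ∧ toR s' = w • (toR s - X (toR s) none • eb X none) := by
  sorry

theorem box_compact (X : V n ≃ₗ[ℝ] (Option ι → ℝ)) (M : ℝ) :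
    IsCompact {v : V n | X v none = 1 ∧ ∀ i, Real.exp (-M) ≤ X v (some i) ∧ X v (some i) ≤ Real.exp M} := by
  sorry

theorem pos_amp (X : V n ≃ₗ[ℝ] (Option ι → ℝ)) : IsAmp {v : V n | ∀ a, 0 < X v a} := by
  sorry

theorem cone_sum {S : Finset (Fin n → ℤ)} {κ : Type} (I : Finset κ) (u : κ → V n)
    (hu : ∀ i ∈ I, u i ∈ cone S) : ∑ i ∈ I, u i ∈ cone S := by
  sorry

theorem orth_cover (h : FldD C G X g lam M) : ∃ S : Finset (Fin n → ℤ),
    (∀ s ∈ S, X (toR s) none = 0 ∧ ∀ i, 0 < X (toR s) (some i)) ∧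
    ∀ v, X v none = 0 → (∀ i, 0 < X v (some i)) → ∃ t, act (g t) v ∈ cone S := by
  sorry

end Pool.Agent.H49.MF
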