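import Pool.Agent.H49.MF.Dom

/-!
# [H49 MF Tri] The cubic form in coordinates

* `t_inv`: `T (e_a) (e_b) (e_c)` is multiplied by `lam_a lam_b lam_c` (`lam_none = 1`) under `act (g t)` (`f.Tinv`, `act_eb0`, `act_eb1`), so it is zero if the
  product of the eigenvalues is not `1` for some `t`.
* `t_nn`: `T e_a e_b e_i ≥ 0` for `i : ι`.  `a, b : ι`: `f.nn`, `eb_mem`.  `a = b = none`: `T e_0 e_0 e_i = lam t i * T e_0 e_0 e_i`, `lam_ne`: zero.
  `a = none`, `b : ι` (and symmetric, `f.s12`): let `τ = T e_0 e_b e_i`.  If `τ = 0` done.  If `τ ≠ 0` then `lam t b * lam t i = 1` for all `t` (`Tinv`), so for every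
  `c : ι`: `T e_c e_b e_i = lam t c * T e_c e_b e_i`, zero (`lam_ne`).  With `A = X.symm (fun _ => 1) = e_0 + ∑ e_c` (`expand`): `T A e_b e_i = τ ≥ 0` (`f.nn`).
* `t_pos`: `T A A e_i > 0` (`f.pos`, `eb_mem`, `eb_ne`), `T A A e_i = ∑_a ∑_b T e_a e_b e_i` (`a, b : Option ι`), and with `m > 0` the minimum of the coordinates of `p`:
  `T p p e_i = ∑_a ∑_b p_a p_b T e_a e_b e_i ≥ m ^ 2 T A A e_i > 0` (`t_nn`).
* `t_ppw`: `w = ∑ w_i e_i` (`expand`), `T p p w = ∑ w_i T p p e_i`, some `w_i > 0`.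
-/

set_option autoImplicit false

namespace Pool.Agent.H49.MF

open Pool.Agent.H57.KM Pool.Agent.H20.FV Pool.Agent.H60.P3 Filter Topology

variable {n : ℕ} {ι Tt : Type} [Fintype ι] {X : V n ≃ₗ[ℝ] (Option ι → ℝ)} {C : Set (V n)}
  {G : Subgroup (GL (Fin n) ℤ)} {g : Tt → GL (Fin n) ℤ} {lam : Tt → ι → ℝ} {M : ℝ}
  {T : V n →ₗ[ℝ] V n →ₗ[ℝ] V n →ₗ[ℝ] ℝ} {l : V n →ₗ[ℝ] ℝ}

theorem t_nn (f : Fr C G T l) (h : FldD C G X g lam M) (a b : Option ι) (i : ι) :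
    0 ≤ T (eb X a) (eb X b) (eb X (some i)) := by
  sorry

theorem t_pos (f : Fr C G T l) (h : FldD C G X g lam M) {p : V n} (hp : ∀ a, 0 < X p a) (i : ι) :
    0 < T p p (eb X (some i)) := by
  sorry

theorem t_ppw (f : Fr C G T l) (h : FldD C G X g lam M) {p w : V n} (hp : ∀ a, 0 < X p a)
    (h0 : X w none = 0) (hw : ∀ i, 0 ≤ X w (some i)) (hw0 : w ≠ 0) : 0 < T p p w := by
  sorry

end Pool.Agent.H49.MF
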