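import Pool.Agent.H49.MF.Def

/-!
# [H49 MF Vec] The unit vectors

`eb_X`: `LinearEquiv.apply_symm_apply`.  `expand`: apply `X` (`X.injective`), `funext`, cases on `Option`.  `act_eb0`, `act_eb1`: apply `X`, `act0`,
`act1`.  `ext_X`: `X.injective`, `funext`.  `x_cont`: `X` is continuous (finite dimension: `LinearMap.continuous_of_finiteDimensional`).
`orth_mem`: `v = ∑ i, X v (some i) • eb X (some i)` (`expand`), `closure C` is a convex cone (`closure_add`, `closure_smul`).
`tend_X`: `X.symm` is continuous, `tendsto_pi_nhds`.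
-/

set_option autoImplicit false

namespace Pool.Agent.H49.MF

open Pool.Agent.H57.KM Pool.Agent.H20.FV Pool.Agent.H60.P3 Filter Topology

variable {n : ℕ} {ι Tt : Type} [Fintype ι] {X : V n ≃ₗ[ℝ] (Option ι → ℝ)}

open Classical in
theorem eb_X (a b : Option ι) : X (eb X a) b = if b = a then 1 else 0 := by
  sorry

theorem eb_ne (a : Option ι) : eb X a ≠ 0 := by
  sorry

theorem ext_X {x y : V n} (h0 : X x none = X y none) (h : ∀ i, X x (some i) = X y (some i)) : x = y := by
  sorry

theorem expand (x : V n) : x = X x none • eb X none + ∑ i, X x (some i) • eb X (some i) := by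
  sorry

theorem x_cont (a : Option ι) : Continuous fun x : V n => X x a := by
  sorry

/-- convergence in coordinates -/
theorem tend_X {u : ℕ → V n} {x : V n} (h0 : Tendsto (fun k => X (u k) none) atTop (𝓝 (X x none)))
    (h : ∀ i, Tendsto (fun k => X (u k) (some i)) atTop (𝓝 (X x (some i)))) : Tendsto u atTop (𝓝 x) := by
  sorry

variable {C : Set (V n)} {G : Subgroup (GL (Fin n) ℤ)} {g : Tt → GL (Fin n) ℤ} {lam : Tt → ι → ℝ} {M : ℝ}

theorem act_eb0 (h : FldD C G X g lam M) (t : Tt) : act (g t) (eb X none) = eb X none := by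
  sorry

theorem act_eb1 (h : FldD C G X g lam M) (t : Tt) (i : ι) :
    act (g t) (eb X (some i)) = lam t i • eb X (some i) := by
  sorry

/-- the closed orthant is in `closure C` if the unit vectors are -/
theorem orth_mem (hC : IsAmp C) (he : ∀ i : ι, eb X (some i) ∈ closure C) {v : V n} (h0 : X v none = 0)
    (h : ∀ i, 0 ≤ X v (some i)) : v ∈ closure C := by
  sorry

end Pool.Agent.H49.MF
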